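import Mathlib
import Pool.Agent.Lib.MP_5a6238_co.GenF

namespace Pool.Agent.Results.MP_5a6238_co.GenericHost

open Pool.Agent.Lib.MP_5a6238_co.Host MvPolynomial

theorem result {r p : ℕ} (hr : 0 < r) {m σ K V : Type} [Fintype m] [Fintype σ] [Field K]
    [Algebra (ZMod p) K] [Fintype V] (P : Fin r → Matrix m m (MvPolynomial σ ℤ))
    (b : m → MvPolynomial σ ℤ) (t : ℕ → σ → K)
    (ht : AlgebraicIndependent (ZMod p) fun a : ℕ × σ => t a.1 a.2)
    (hP : ∃ y : Fin r → m → K,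
      ∑ c, ((P c).map (aeval (t 0))).mulVec (y c) = (fun a => aeval (t 0) (b a)) ∧
      ∑ c, ((P c).map (aeval (t 1))).mulVec (y c) ≠ fun a => aeval (t 1) (b a))
    (F : Finset (Finset V))
    (hF : ¬Generic (fun i c => (P c).map (aeval (t i))) (fun i a => aeval (t i) (b a)) F) :
    ∃ ε : ℝ, 0 < ε ∧ ∃ n₀ : ℕ, ∀ n ≥ n₀, (n : ℝ) ^ ((r : ℝ) - 1 + ε) ≤ ex r n F :=
  gen_main hr P b t ht hP F hF

/-- The instance with block matrices: hosts given by sums over sets of classes. -/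
theorem sum_host {r d p : ℕ} (hd : 0 < d) {J σ K V : Type} [Fintype J] [Fintype σ] [Field K]
    [Algebra (ZMod p) K] [Fintype V] (S T : J → Finset (Fin r)) (hS : ∀ j, (S j).Nonempty)
    (hT : ∀ j, (T j).Nonempty) (hST : ∀ j, Disjoint (S j) (T j))
    (P : J → Matrix (Fin d) (Fin d) (MvPolynomial σ ℤ)) (t : ℕ → σ → K)
    (ht : AlgebraicIndependent (ZMod p) fun a : ℕ × σ => t a.1 a.2)
    (hP : ∃ j, ((P j).map (aeval (t 0)) - (P j).map (aeval (t 1))).det ≠ 0)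
    (F : Finset (Finset V)) (hF : ¬Contains (host S T fun i j => (P j).map (aeval (t i))) F) :
    ∃ ε : ℝ, 0 < ε ∧ ∃ n₀ : ℕ, ∀ n ≥ n₀, (n : ℝ) ^ ((r : ℝ) - 1 + ε) ≤ ex r n F := by
  obtain ⟨hr, P', h1, h2⟩ := sum_hyp S T hd hS hT hST P t ht hP hF
  exact result hr P' (fun _ => 0) t ht h1 F h2

/-- An instance of `sum_host` (all splittings of the classes, free 2 by 2 matrices): without a
potential in the free group the Turan number is not of order `n ^ (r - 1)`. -/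
theorem free_potential {r : ℕ} (hr : 2 ≤ r) {V : Type} [Fintype V] [DecidableEq V]
    (F : Finset (Finset V))
    (hF : ¬∃ (col : V → Fin r) (l : Finset V → ℕ) (φ ψ : Finset V → FreeGroup ℕ),
      (∀ e ∈ F, Set.BijOn col e Set.univ) ∧ (∀ e ∈ F, ∀ e' ∈ F, (e \ e').card = 1 → l e ≠ l e') ∧
      ∀ e ∈ F, ∀ A ⊂ e, A.Nonempty → φ A = FreeGroup.of (l e) * ψ (e \ A)) :
    ∃ ε : ℝ, 0 < ε ∧ ∃ n₀ : ℕ, ∀ n ≥ n₀, (n : ℝ) ^ ((r : ℝ) - 1 + ε) ≤ ex r n F :=
  potential hr F hF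

/-- A cycle of length `2 (j + k)` with one hub on `2 j` consecutive edges and a second hub on the
other `2 k` edges, for `j ≠ k` and for `j = k = 2`. -/
theorem split_wheel {j k : ℕ} (hj : 0 < j) (hk : 0 < k) (h : j ≠ k ∨ j = 2) :
    ∃ ε : ℝ, 0 < ε ∧ ∃ n₀ : ℕ, ∀ n ≥ n₀, (n : ℝ) ^ (2 + ε) ≤ ex 3 n
      ((Finset.range (2 * (j + k))).image fun i : ℕ =>
        ({.inl (decide (i < 2 * j)), .inr i, .inr (i + 1)} : Finset (Bool ⊕ ZMod (2 * (j + k))))) := by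
  by_cases e : j = k
  · obtain rfl := h.resolve_left (not_not.2 e)
    exact e ▸ wheel_bound
  · exact splitWheel_bound hj hk e

end Pool.Agent.Results.MP_5a6238_co.GenericHost
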