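import Mathlib
import Pool.Agent.Lib.MP_5a6238_co.Main

set_option autoImplicit false

namespace Pool.Agent.Results.MP_5a6238_co.OneSideDegree

open Finset

/-- The hypergraph `H` contains `F` as a (not necessarily induced) subhypergraph. -/
def Contains {V W : Type} (H : Finset (Finset W)) (F : Finset (Finset V)) : Prop :=
  ∃ f : V ↪ W, ∀ e ∈ F, e.map f ∈ H

open Classical in
/-- The Turan number: the largest number of edges of an `F`-free `r`-graph on `n` vertices. -/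
noncomputable def ex (r n : ℕ) {V : Type} (F : Finset (Finset V)) : ℕ :=
  ({H ∈ (powersetCard r (univ : Finset (Fin n))).powerset | ¬Contains H F} : Finset _).sup card

open Classical in
/-- The `r`-uniform expansion: every edge of `G` is enlarged by its own `r - 2` new vertices. -/
noncomputable def expansion (r : ℕ) {V : Type} [Fintype V] (G : SimpleGraph V) :
    Finset (Finset (V ⊕ G.edgeSet × Fin (r - 2))) :=
  (univ : Finset G.edgeSet).image fun e : G.edgeSet =>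
    ({v | v ∈ e.1} : Finset V).disjSum {p | p.1 = e}

open Classical in
lemma mem_expansion (r : ℕ) {V : Type} [Fintype V] {G : SimpleGraph V} {u v : V} (h : G.Adj u v) :
    ∃ e ∈ expansion r G, Sum.inl u ∈ e ∧ Sum.inl v ∈ e :=
  ⟨_, mem_image_of_mem _ (mem_univ ⟨s(u, v), h⟩), by simp, by simp⟩

theorem result (r : ℕ) (hr : 3 ≤ r) :
    ∃ (m : ℕ) (G : SimpleGraph (Fin m)) (A B : Set (Fin m)), G.IsBipartiteWith A B ∧
      (∀ v ∈ B, (G.neighborSet v).ncard ≤ r.choose 2) ∧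
      ∃ ε : ℝ, 0 < ε ∧ ∃ n₀ : ℕ, ∀ n ≥ n₀,
        (n : ℝ) ^ ((r : ℝ) - 1 + ε) ≤ ex r n (expansion r G) := by
  classical
  obtain ⟨k, ε, hε, n₀, h⟩ := Pool.Agent.Lib.MP_5a6238_co.construction hr
  let U := Fin k ⊕ (Fin (r.choose 2) → Fin k)
  let q := Fintype.equivFin U
  let G : SimpleGraph (Fin (Fintype.card U)) :=
    SimpleGraph.fromRel fun u v => ∃ b j, u = q (Sum.inr b) ∧ v = q (Sum.inl (b j))
  have hG : ∀ u v, G.Adj u v → (∃ b j, u = q (Sum.inr b) ∧ v = q (Sum.inl (b j))) ∨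
      ∃ b j, v = q (Sum.inr b) ∧ u = q (Sum.inl (b j)) := fun u v huv =>
    ((SimpleGraph.fromRel_adj _ _ _).1 huv).2
  refine ⟨_, G, Set.range fun a => q (Sum.inl a), Set.range fun b => q (Sum.inr b), ⟨?_, ?_⟩, ?_,
    ε, hε, n₀, fun n hn => ?_⟩
  · rw [Set.disjoint_left]
    rintro _ ⟨a, rfl⟩ ⟨b, hb⟩
    simp at hb
  · intro u v huv
    rcases hG u v huv with ⟨b, j, rfl, rfl⟩ | ⟨b, j, rfl, rfl⟩
    · exact Or.inr ⟨⟨_, rfl⟩, ⟨_, rfl⟩⟩
    · exact Or.inl ⟨⟨_, rfl⟩, ⟨_, rfl⟩⟩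
  · rintro _ ⟨b, rfl⟩
    have h1 : G.neighborSet (q (Sum.inr b)) ⊆ (fun j => q (Sum.inl (b j))) '' Set.univ := by
      intro v hv
      rcases hG _ _ hv with ⟨b', j, h1, rfl⟩ | ⟨b', j, -, h1⟩
      · obtain rfl : b = b' := Sum.inr_injective (q.injective h1)
        exact ⟨j, trivial, rfl⟩
      · simp at h1
    refine le_trans (Set.ncard_le_ncard h1) (le_trans (Set.ncard_image_le) ?_)
    simp [Set.ncard_univ]
  · obtain ⟨R, H, h1, h2, h3⟩ := h n hn
    refine le_trans h2 (Nat.cast_le.2 (le_sup (f := card) ?_))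
    refine mem_filter.2 ⟨mem_powerset.2 fun e he => mem_powersetCard.2 ⟨subset_univ _, (h1 e he).1⟩, ?_⟩
    rintro ⟨f, hf⟩
    refine h3 (q.toEmbedding.trans (Function.Embedding.inl.trans f)) fun b j => ?_
    have hne : q (Sum.inr b) ≠ q (Sum.inl (b j)) := by simp
    have hadj : G.Adj (q (Sum.inr b)) (q (Sum.inl (b j))) :=
      (SimpleGraph.fromRel_adj _ _ _).2 ⟨hne, Or.inl ⟨b, j, rfl, rfl⟩⟩
    obtain ⟨e, he, hu, hv⟩ := mem_expansion r hadj
    exact (h1 _ (hf e he)).2 _ (mem_map_of_mem _ hu) _ (mem_map_of_mem _ hv)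
      fun h => hne (Sum.inl_injective (f.injective h))

end Pool.Agent.Results.MP_5a6238_co.OneSideDegree
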