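import Mathlib
import Pool.Agent.Lib.MP_5a6238_co.Cone

namespace Pool.Agent.Results.MP_5a6238_co.ThreeClasses

open Finset

/-- The hypergraph `H` contains `F` as a (not necessarily induced) subhypergraph. -/
def Contains {V W : Type} (H : Finset (Finset W)) (F : Finset (Finset V)) : Prop :=
  ∃ f : V ↪ W, ∀ e ∈ F, e.map f ∈ H

open Classical in
/-- The Turan number: the largest number of edges of an `F`-free `r`-graph on `n` vertices. -/
noncomputable def ex (r n : ℕ) {V : Type} (F : Finset (Finset V)) : ℕ :=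
  ({H ∈ (powersetCard r (univ : Finset (Fin n))).powerset | ¬Contains H F} : Finset _).sup card

/-- The 2-shadow: two distinct vertices are adjacent when some edge contains both. -/
def shadow {V : Type} (F : Finset (Finset V)) : SimpleGraph V :=
  SimpleGraph.fromRel fun u v => ∃ e ∈ F, u ∈ e ∧ v ∈ e

/-- The wheel with four spokes, that is the complete tripartite graph `K_{1,2,2}`. -/
def K122 : SimpleGraph (Σ i : Fin 3, Fin (![1, 2, 2] i)) :=
  SimpleGraph.completeMultipartiteGraph fun i : Fin 3 => Fin (![1, 2, 2] i)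

theorem result : ∃ δ : ℝ, 0 < δ ∧ ∀ r ≥ 3, ∃ n₀ : ℕ, ∀ n ≥ n₀,
    ∀ (V : Type) (F : Finset (Finset V)),
      (∀ col : V → Fin r, (∀ e ∈ F, Set.BijOn col e Set.univ) →
        K122.IsContained ((shadow F).induce {v | (col v : ℕ) < 3})) →
      (n : ℝ) ^ ((r : ℝ) - 1 + δ) ≤ ex r n F := by
  classical
  obtain ⟨δ, hδ, h⟩ := Pool.Agent.Lib.MP_5a6238_co.Wheel.exists_cone
  refine ⟨δ, hδ, fun r hr => ?_⟩
  obtain ⟨k, rfl⟩ := Nat.exists_eq_add_of_le hr
  obtain ⟨n₀, h⟩ := h k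
  refine ⟨n₀, fun n hn V F hF => ?_⟩
  obtain ⟨H, c, h1, h3, h2⟩ := h n hn
  rw [show ((3 + k : ℕ) : ℝ) - 1 = 2 + k by push_cast; ring]
  refine le_trans h2 (Nat.cast_le.2 (le_sup (f := card) ?_))
  refine mem_filter.2
    ⟨mem_powerset.2 fun e he => mem_powersetCard.2 ⟨subset_univ _, (h1 e he).1⟩, ?_⟩
  rintro ⟨f, hf⟩
  obtain ⟨g⟩ := hF (c ∘ f) fun e he => by
    have := (h1 _ (hf e he)).2
    rw [coe_map] at this
    exact this.comp f.injective.injOn.bijOn_image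
  have key : ∀ a b, K122.Adj a b →
      Pool.Agent.Lib.MP_5a6238_co.Wheel.Sh H (f (g a).1) (f (g b).1) := by
    intro a b hab
    have h0 : (shadow F).Adj (g a).1 (g b).1 := g.toHom.map_adj hab
    have := (SimpleGraph.fromRel_adj _ _ _).1 h0
    refine ⟨fun h => this.1 (f.injective h), ?_⟩
    rcases this.2 with ⟨e, he, hu, hv⟩ | ⟨e, he, hv, hu⟩ <;>
      exact ⟨_, hf e he, mem_map_of_mem _ hu, mem_map_of_mem _ hv⟩
  rcases h3 (f (g ⟨0, (0 : Fin 1)⟩).1) (f (g ⟨1, (0 : Fin 2)⟩).1) (f (g ⟨1, (1 : Fin 2)⟩).1)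
    (f (g ⟨2, (0 : Fin 2)⟩).1) (f (g ⟨2, (1 : Fin 2)⟩).1) (g _).2 (g _).2 (g _).2 (g _).2 (g _).2
    (key _ _ (by simp [K122])) (key _ _ (by simp [K122])) (key _ _ (by simp [K122]))
    (key _ _ (by simp [K122])) (key _ _ (by simp [K122])) (key _ _ (by simp [K122]))
    (key _ _ (by simp [K122])) (key _ _ (by simp [K122])) with h | h <;>
  exact absurd (eq_of_heq (Sigma.mk.inj (g.injective (Subtype.ext (f.injective h)))).2)
    (by decide)

/-- The case `r = 3`: every family whose shadow contains `K_{1,2,2}`. -/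
theorem three : ∃ δ : ℝ, 0 < δ ∧ ∃ n₀ : ℕ, ∀ n ≥ n₀, ∀ (V : Type) (F : Finset (Finset V)),
    K122.IsContained (shadow F) → (n : ℝ) ^ (2 + δ) ≤ ex 3 n F := by
  obtain ⟨δ, hδ, h⟩ := result
  obtain ⟨n₀, h⟩ := h 3 le_rfl
  refine ⟨δ, hδ, n₀, fun n hn V F ⟨g⟩ => ?_⟩
  have := h n hn V F fun col _ => ⟨⟨⟨fun a => ⟨g a, (col _).2⟩, fun hab => g.toHom.map_adj hab⟩,
    fun a b hab => g.injective (congrArg Subtype.val hab)⟩⟩
  rwa [show ((3 : ℕ) : ℝ) - 1 = 2 by norm_num] at this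

/-- Every family whose shadow contains the complete `r`-partite graph `K_{1,2,...,2}`. -/
theorem multipartite : ∃ δ : ℝ, 0 < δ ∧ ∀ r ≥ 3, ∃ n₀ : ℕ, ∀ n ≥ n₀,
    ∀ (V : Type) (F : Finset (Finset V)),
      (SimpleGraph.completeMultipartiteGraph fun i : Fin r =>
        Fin (if (i : ℕ) = 0 then 1 else 2)).IsContained (shadow F) →
      (n : ℝ) ^ ((r : ℝ) - 1 + δ) ≤ ex r n F := by
  obtain ⟨δ, hδ, h⟩ := result
  refine ⟨δ, hδ, fun r hr => (h r hr).imp fun n₀ h n hn V F ⟨g⟩ => h n hn V F fun col hcol => ?_⟩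
  have hne : ∀ p q, p.1 ≠ q.1 → col (g p) ≠ col (g q) := by
    intro p q hpq hc
    have := (SimpleGraph.fromRel_adj _ _ _).1 (g.toHom.map_adj (v := p) (w := q) hpq)
    rcases this.2 with ⟨e, he, hu, hv⟩ | ⟨e, he, hv, hu⟩ <;>
      exact this.1 ((hcol e he).injOn hu hv hc)
  let π : Fin r → Fin r := fun i => col (g ⟨i, ⟨0, by split <;> omega⟩⟩)
  have hs : Function.Surjective π := Finite.surjective_of_injective fun i j hij =>
    by_contra fun h => hne ⟨i, _⟩ ⟨j, _⟩ h hij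
  have hc : ∀ p, col (g p) = π p.1 := fun p => by
    obtain ⟨j, hj⟩ := hs (col (g p))
    by_cases h : p.1 = j
    · rw [h, hj]
    · exact absurd hj.symm (hne p ⟨j, _⟩ h)
  obtain ⟨P, hP, h3, hle⟩ : ∃ P : Fin 3 → Fin r, Function.Injective P ∧
      (∀ i, (π (P i) : ℕ) < 3) ∧ ∀ i, ![1, 2, 2] i ≤ if (P i : ℕ) = 0 then 1 else 2 := by
    choose s hs using hs
    have h1 : Function.Injective fun i : Fin 3 => s (Fin.castLE hr i) := fun i j hij =>
      Fin.castLE_injective hr ((hs _).symm.trans ((congrArg π hij).trans (hs _)))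
    obtain ⟨j, hj⟩ : ∃ j : Fin 3, ∀ i, i ≠ j → (s (Fin.castLE hr i) : ℕ) ≠ 0 := by
      by_cases h : ∃ j : Fin 3, (s (Fin.castLE hr j) : ℕ) = 0
      · exact h.imp fun j hj i hi h0 => hi (h1 (Fin.ext (h0.trans hj.symm)))
      · exact ⟨0, fun i _ h0 => h ⟨i, h0⟩⟩
    refine ⟨fun i => s (Fin.castLE hr (i + j)), h1.comp (add_left_injective j),
      fun i => by simp [hs], fun i => ?_⟩
    by_cases hi : i = 0
    · subst hi
      split <;> simp
    · rw [if_neg (hj _ (by simpa using hi))]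
      fin_cases i <;> simp
  exact ⟨⟨⟨fun p => ⟨g (p.map P fun i => Fin.castLE (hle i)), by
      simpa [hc, Sigma.map] using h3 p.1⟩, fun hab => g.toHom.map_adj fun h => hab (hP h)⟩,
    fun a b hab => hP.sigma_map (fun i => Fin.castLE_injective _)
      (g.injective (congrArg Subtype.val hab))⟩⟩

end Pool.Agent.Results.MP_5a6238_co.ThreeClasses
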