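import Mathlib
import Pool.Agent.Lib.MP_5a6238_co.Degen

namespace Pool.Agent.Results.MP_5a6238_co.TwoDegenerate

open Finset

/-- The hypergraph `H` contains `F` as a (not necessarily induced) subhypergraph. -/
def Contains {V W : Type} (H : Finset (Finset W)) (F : Finset (Finset V)) : Prop :=
  ∃ f : V ↪ W, ∀ e ∈ F, e.map f ∈ H

open Classical in
/-- The Turan number: the largest number of edges of an `F`-free `r`-graph on `n` vertices. -/
noncomputable def ex (r n : ℕ) {V : Type} (F : Finset (Finset V)) : ℕ :=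
  ({H ∈ (powersetCard r (univ : Finset (Fin n))).powerset | ¬Contains H F} : Finset _).sup card

open Classical in
/-- The 3-uniform expansion: every edge of `G` is enlarged by its own new vertex. -/
noncomputable def expansion {V : Type} [Fintype V] (G : SimpleGraph V) :
    Finset (Finset (V ⊕ G.edgeSet)) :=
  (univ : Finset G.edgeSet).image fun e : G.edgeSet =>
    ({v | v ∈ e.1} : Finset V).disjSum {e}

/-- A graph is 2-degenerate if every nonempty set of vertices contains a vertex with at most two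
neighbours in the set. -/
def TwoDegenerate {V : Type} (G : SimpleGraph V) : Prop :=
  ∀ S : Set V, S.Nonempty → ∃ v ∈ S, (G.neighborSet v ∩ S).encard ≤ 2

open Classical in
lemma mem_expansion {V : Type} [Fintype V] {G : SimpleGraph V} {u v : V} (h : G.Adj u v) :
    ∃ e ∈ expansion G, Sum.inl u ∈ e ∧ Sum.inl v ∈ e :=
  ⟨_, mem_image_of_mem _ (mem_univ ⟨s(u, v), h⟩), by simp, by simp⟩

theorem result : ∃ (V : Type) (_ : Fintype V) (G : SimpleGraph V), TwoDegenerate G ∧
    ∃ ε : ℝ, 0 < ε ∧ ∃ n₀ : ℕ, ∀ n ≥ n₀, (n : ℝ) ^ (2 + ε) ≤ ex 3 n (expansion G) := by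
  classical
  obtain ⟨T, ε, hε, n₀, h⟩ := Pool.Agent.Lib.MP_5a6238_co.Degen.exists_hyper
  refine ⟨_, inferInstance, Pool.Agent.Lib.MP_5a6238_co.Degen.G T, fun S hS => ?_, ε, hε, n₀,
    fun n hn => ?_⟩
  · obtain ⟨v, hv, h2⟩ := Pool.Agent.Lib.MP_5a6238_co.Degen.G_degen T S hS
    refine ⟨v, hv, ?_⟩
    rw [← (Set.toFinite _).cast_ncard_eq]
    exact_mod_cast h2
  · obtain ⟨H, h1, h2, h3⟩ := h n hn
    refine le_trans h2 (Nat.cast_le.2 (le_sup (f := card) ?_))
    refine mem_filter.2
      ⟨mem_powerset.2 fun e he => mem_powersetCard.2 ⟨subset_univ _, h1 e he⟩, ?_⟩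
    rintro ⟨f, hf⟩
    refine h3 (Function.Embedding.inl.trans f) fun v w hvw => ?_
    obtain ⟨e, he, hv, hw⟩ := mem_expansion hvw
    exact ⟨_, hf e he, mem_map_of_mem _ hv, mem_map_of_mem _ hw⟩

end Pool.Agent.Results.MP_5a6238_co.TwoDegenerate
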